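import Pool.Agent.Helper43.OB.Sylow
import Pool.Agent.Helper98.TR.CY

/-!
# HI, block S1K: an automorphism over a subfield of `ℂ` which moves all given numbers of degree divisible by `l`
-/

set_option autoImplicit false

namespace Pool.Agent.Helper26.HI

open IntermediateField

/-- **S1K**: an automorphism over any subfield `K` of `ℂ` which moves all given numbers of degree divisible by `l` (a Sylow subgroup of the Galois group is
not the union of `k ≤ l` proper subgroups) -/
theorem sylowK (K : Subfield ℂ) (l : ℕ) (hl : l.Prime) {k : ℕ} (hk : k ≤ l) (x : Fin k → ℂ)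
    (hx : ∀ b, IsAlgebraic K (x b) → l ∣ (minpoly K (x b)).natDegree) :
    ∃ σ : ℂ ≃+* ℂ, (∀ z ∈ K, σ z = z) ∧ ∀ b, IsAlgebraic K (x b) →
      l ∣ Function.minimalPeriod σ (x b) := by
  classical
  have hfact : Fact l.Prime := ⟨hl⟩
  set B : Finset (Fin k) := Finset.univ.filter fun b => IsAlgebraic K (x b) with hBdef
  have hB : ∀ b, b ∈ B ↔ IsAlgebraic K (x b) := fun b => by simp [hBdef]
  have hint : ∀ b ∈ B, IsIntegral K (x b) := fun b hb => by
    exact ((hB b).1 hb).isIntegral
  set p : Polynomial K := ∏ b ∈ B, minpoly K (x b) with hp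
  have hp0 : p ≠ 0 := Finset.prod_ne_zero_iff.2 fun b hb => minpoly.ne_zero (hint b hb)
  set N : IntermediateField K ℂ := adjoin K (p.rootSet ℂ) with hN
  have hsplit : Polynomial.IsSplittingField K N p :=
    IntermediateField.adjoin_rootSet_isSplittingField (IsAlgClosed.splits _)
  have hfin : FiniteDimensional K N := Polynomial.IsSplittingField.finiteDimensional N p
  have hnorm : Normal K N := Normal.of_isSplittingField p
  have hgal : IsGalois K N := ⟨⟩
  have hxN : ∀ b ∈ B, x b ∈ N := fun b hb => by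
    refine subset_adjoin _ _ ?_
    rw [Polynomial.mem_rootSet]
    refine ⟨hp0, ?_⟩
    rw [hp, map_prod]
    exact Finset.prod_eq_zero hb (minpoly.aeval K (x b))
  obtain ⟨P⟩ : Nonempty (Sylow l (N ≃ₐ[K] N)) := inferInstance
  -- the proper subgroups
  let y : Fin k → N := fun b => if h : x b ∈ N then ⟨x b, h⟩ else 0
  have hy : ∀ b ∈ B, ((y b : N) : ℂ) = x b := fun b hb => by
    simp only [y]
    rw [dif_pos (hxN b hb)]
  have hQ : ∀ b ∈ B, (fixingSubgroup K⟮y b⟯).subgroupOf (P : Subgroup (N ≃ₐ[K] N)) ≠ ⊤ := by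
    intro b hb htop
    have h1 : (P : Subgroup (N ≃ₐ[K] N)) ≤ fixingSubgroup K⟮y b⟯ := Subgroup.subgroupOf_eq_top.1 htop
    have h2 : (fixingSubgroup K⟮y b⟯).index ∣ (P : Subgroup (N ≃ₐ[K] N)).index := Subgroup.index_dvd_of_le h1
    have h3 : l ∣ (fixingSubgroup K⟮y b⟯).index := by
      rw [← IntermediateField.finrank_eq_fixingSubgroup_index,
        IntermediateField.adjoin.finrank (IsIntegral.of_finite K (y b))]
      have h4 : minpoly K (y b) = minpoly K (x b) := by
        rw [← hy b hb]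
        exact (minpoly.algebraMap_eq (algebraMap N ℂ).injective (y b)).symm
      rw [h4]
      exact hx b ((hB b).1 hb)
    exact P.not_dvd_index (h3.trans h2)
  obtain ⟨g, hg⟩ := Pool.Agent.Helper43.OB.exists_not_mem hl P.isPGroup' B
    ((Finset.card_le_univ B).trans (by rwa [Fintype.card_fin])) _ hQ
  obtain ⟨σ, hσN⟩ : ∃ σ : ℂ ≃+* ℂ, ∀ z : N, σ (z : ℂ) = (((g : N ≃ₐ[K] N) z : N) : ℂ) := by
    obtain ⟨σ, hσ⟩ := Pool.Agent.Helper10.TR.exists_ext98 K N (g : N ≃ₐ[K] N)
    exact ⟨σ.toRingEquiv, hσ⟩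
  have hiter : ∀ (n : ℕ) (z : N), σ^[n] (z : ℂ) = ((((g : N ≃ₐ[K] N) ^ n) z : N) : ℂ) := by
    intro n
    induction n with
    | zero => intro z; rfl
    | succ n ih =>
      intro z
      rw [Function.iterate_succ_apply, hσN, ih]
      congr 1
  refine ⟨σ, fun z hz => ?_, fun b hb => ?_⟩
  · have h1 := hσN (algebraMap K N ⟨z, hz⟩)
    rw [AlgEquiv.commutes] at h1
    exact h1
  · have hbB := (hB b).2 hb
    obtain ⟨n, hn⟩ := IsPGroup.iff_card.1 P.isPGroup'
    have hgn : (g : N ≃ₐ[K] N) ^ l ^ n = 1 := by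
      have h1 : g ^ l ^ n = 1 := by
        rw [← hn]
        exact pow_card_eq_one'
      have h2 := congrArg (fun z : (P : Subgroup (N ≃ₐ[K] N)) => (z : N ≃ₐ[K] N)) h1
      simpa using h2
    have hper : Function.IsPeriodicPt σ (l ^ n) (x b) := by
      rw [Function.IsPeriodicPt, Function.IsFixedPt, ← hy b hbB, hiter, hgn]
      rfl
    obtain ⟨j, -, hj⟩ := (Nat.dvd_prime_pow hl).1 hper.minimalPeriod_dvd
    rw [hj]
    refine dvd_pow_self l ?_
    rintro rfl
    rw [pow_zero, Function.minimalPeriod_eq_one_iff_isFixedPt] at hj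
    refine hg b hbB ?_
    rw [Subgroup.mem_subgroupOf, IntermediateField.mem_fixingSubgroup_iff]
    have h2 : (g : N ≃ₐ[K] N) (y b) = y b := by
      apply Subtype.ext
      rw [← hσN, hy b hbB]
      exact hj
    intro z hz
    have h3 : K⟮y b⟯ ≤ IntermediateField.fixedField (Subgroup.zpowers (g : N ≃ₐ[K] N)) := by
      rw [IntermediateField.adjoin_simple_le_iff, IntermediateField.mem_fixedField_iff]
      rintro f hf
      obtain ⟨m, rfl⟩ := Subgroup.mem_zpowers_iff.1 hf
      have h4 : (g : N ≃ₐ[K] N) ∈ MulAction.stabilizer (N ≃ₐ[K] N) (y b) := h2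
      exact Subgroup.zpow_mem _ h4 m
    exact (IntermediateField.mem_fixedField_iff _ _).1 (h3 hz) _ (Subgroup.mem_zpowers _)

end Pool.Agent.Helper26.HI
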