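import Mathlib
import Pool.Agent.Helper26.HI.Defs

/-!
# HI, block HC1: a determinant of values of polynomials at points divisible by `p`
-/

set_option autoImplicit false

namespace Pool.Agent.Helper26.HI

open MvPolynomial

noncomputable section

/-- multilinear expansion of a determinant in the columns -/
theorem det_expand_h53 {J D : Type} [Fintype J] [DecidableEq J] (t : J → Finset D) (a : J → D → ℤ)
    (b : J → D → ℤ) :
    (Matrix.of fun i j => ∑ d ∈ t j, a j d * b i d).det =
      ∑ κ ∈ Fintype.piFinset t, (∏ j, a j (κ j)) * (Matrix.of fun i j => b i (κ j)).det := by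
  rw [Matrix.det_apply]
  have h1 : ∀ σ : Equiv.Perm J, ∏ i, (Matrix.of fun i j => ∑ d ∈ t j, a j d * b i d) (σ i) i =
      ∑ κ ∈ Fintype.piFinset t, (∏ j, a j (κ j)) * ∏ i, b (σ i) (κ i) := by
    intro σ
    simp only [Matrix.of_apply]
    rw [Finset.prod_univ_sum]
    refine Finset.sum_congr rfl fun κ _ => ?_
    rw [Finset.prod_mul_distrib]
  simp only [h1]
  simp only [Finset.smul_sum]
  rw [Finset.sum_comm]
  refine Finset.sum_congr rfl fun κ _ => ?_
  rw [Matrix.det_apply, Finset.mul_sum]
  refine Finset.sum_congr rfl fun σ _ => ?_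
  simp only [Matrix.of_apply]
  rw [Units.smul_def, Units.smul_def, zsmul_eq_mul, zsmul_eq_mul]
  ring

/-- **HC1**: a determinant of values of polynomials at points divisible by `p` -/
theorem det_dvd {r : ℕ} {J : Type} [Fintype J] [DecidableEq J] (p : ℤ) (w : ℕ)
    (hw : ∀ κ : J → (Fin r →₀ ℕ), Function.Injective κ → w ≤ ∑ j, ∑ k, κ j k)
    (G : J → MvPolynomial (Fin r) ℤ) (u : J → Fin r → ℤ) :
    p ^ w ∣ (Matrix.of fun i j => eval (fun k => p * u i k) (G j)).det := by
  have h1 : (Matrix.of fun i j => eval (fun k => p * u i k) (G j)) =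
      Matrix.of fun i j => ∑ d ∈ (G j).support, (coeff d (G j) * p ^ (∑ k, d k)) * ∏ k, u i k ^ d k := by
    ext i j
    simp only [Matrix.of_apply]
    rw [eval_eq']
    refine Finset.sum_congr rfl fun d _ => ?_
    simp only [mul_pow]
    rw [Finset.prod_mul_distrib, Finset.prod_pow_eq_pow_sum]
    ring
  rw [h1, det_expand_h53 (fun j => (G j).support) (fun j d => coeff d (G j) * p ^ (∑ k, d k))
    (fun i d => ∏ k, u i k ^ d k)]
  refine Finset.dvd_sum fun κ _ => ?_
  by_cases hκ : Function.Injective κ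
  · refine Dvd.dvd.mul_right ?_ _
    rw [Finset.prod_mul_distrib]
    refine Dvd.dvd.mul_left ?_ _
    rw [Finset.prod_pow_eq_pow_sum]
    exact pow_dvd_pow p (hw κ hκ)
  · rw [Function.Injective] at hκ
    push Not at hκ
    obtain ⟨i, j, hij, hne⟩ := hκ
    rw [Matrix.det_zero_of_column_eq hne (fun k => by simp only [Matrix.of_apply]; rw [hij])]
    simp

end

end Pool.Agent.Helper26.HI
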